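import Pool.Agent.V1282.ME1

open Set Filter Topology Pool.Agent.V1282.ME

namespace Pool.Agent.Results.MP_fe8c84_an.Uniqueness

/-- Let `α > 0` (in particular `0 < α < 1`) and let the initial datum satisfy `m₀ ≥ 0` on
`[0, ∞)` (in particular, let `m₀` be continuous and nondecreasing with `m₀(0) = 0`).

* Comparison: every viscosity subsolution `m ∈ C([0,∞)²)` lies below every viscosity
  supersolution `M ∈ C([0,∞)²)`; no uniform continuity or growth condition is assumed.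
* Uniqueness: any two viscosity solutions with datum `m₀` coincide on `[0,∞)²`. -/
theorem result (α : ℝ) (hα : 0 < α) (m₀ : ℝ → ℝ) (h0 : ∀ ρ, 0 ≤ ρ → 0 ≤ m₀ ρ) :
    (∀ m M : ℝ × ℝ → ℝ, IsSubsol α m₀ m → IsSupersol α m₀ M →
      ∀ t ρ : ℝ, 0 ≤ t → 0 ≤ ρ → m (t, ρ) ≤ M (t, ρ)) ∧
    (∀ m m' : ℝ × ℝ → ℝ, IsSol α m₀ m → IsSol α m₀ m' →
      ∀ t ρ : ℝ, 0 ≤ t → 0 ≤ ρ → m (t, ρ) = m' (t, ρ)) := by
  refine ⟨fun m M hm hM t ρ ht hρ => comparison hα h0 hm hM (t, ρ) ht hρ, ?_⟩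
  intro m m' hm hm' t ρ ht hρ
  exact le_antisymm (comparison hα h0 hm.1 hm'.2 (t, ρ) ht hρ)
    (comparison hα h0 hm'.1 hm.2 (t, ρ) ht hρ)

end Pool.Agent.Results.MP_fe8c84_an.Uniqueness
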